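import Mathlib
import Pool.Agent.U773.RS.Rel
import Pool.Agent.U773.WN.Num

/-! Ridout's theorem for sums: the induction. -/

set_option autoImplicit false

open Finset Filter Topology

namespace Pool.Agent.U773.RS

open Pool.Agent.TH419.WI Pool.Agent.N671.OPN Pool.Agent.U773.SF Pool.Agent.U773.WN

lemma exists_large {n : ℕ} (a x : Fin n → ℤ) (h : ∑ i, a i * x i ≠ 0) :
    ∃ i, a i ≠ 0 ∧ |((∑ i, a i * x i : ℤ) : ℝ)| ≤ (∑ j, |(a j : ℝ)|) * |(x i : ℝ)| := by
  classical
  set T : Finset (Fin n) := univ.filter (fun i => a i ≠ 0) with hT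
  have hTne : T.Nonempty := by
    by_contra hcon
    rw [Finset.not_nonempty_iff_eq_empty] at hcon
    apply h
    refine Finset.sum_eq_zero fun i _ => ?_
    have : i ∉ T := by rw [hcon]; exact Finset.notMem_empty _
    simp only [hT, mem_filter, mem_univ, true_and, not_not] at this
    rw [this, zero_mul]
  obtain ⟨i, hi, hmax⟩ := Finset.exists_max_image T (fun i => |(x i : ℝ)|) hTne
  simp only [hT, mem_filter, mem_univ, true_and] at hi hmax
  refine ⟨i, hi, ?_⟩
  push_cast
  rw [Finset.sum_mul]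
  refine (Finset.abs_sum_le_sum_abs _ _).trans (Finset.sum_le_sum fun j _ => ?_)
  rw [abs_mul]
  by_cases hj : a j = 0
  · rw [hj]; simp
  · exact mul_le_mul_of_nonneg_left (hmax j hj) (abs_nonneg _)

/-- the induction -/
theorem claim (O : Type) [CommRing O] [IsDomain O] [CharZero O] [Module.Free ℤ O]
    [Module.Finite ℤ O] (ρ : O →+* ℝ) {S : Finset ℕ} (hS : ∀ p ∈ S, p.Prime) {ξ : ℝ}
    (hirr : Irrational ξ) (θ : O) (d : ℤ) (hd : d ≠ 0) (hθ : ρ θ = d * ξ) (n : ℕ) :
    ∀ (L : ℕ → ℝ) (_ : Tendsto L atTop atTop) (a b : Fin n → ℤ) (x : ℕ → Fin n → ℤ) (C δ : ℝ),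
      0 ≤ C → 0 < δ →
      (∀ᶠ t in atTop, ∀ i, x t i ≠ 0 ∧ |(x t i : ℝ)| ≤ Real.exp (C * L t)) →
      (∀ᶠ t in atTop, ∑ i, a i * x t i ≠ 0) →
      (∀ᶠ t in atTop, |ξ * ((∑ i, a i * x t i : ℤ) : ℝ) - ((∑ i, b i * x t i : ℤ) : ℝ)| *
        ∏ i, (free S (x t i) : ℝ) ≤ |((∑ i, a i * x t i : ℤ) : ℝ)| * Real.exp (-(δ * L t))) →
      False := by
  classical
  induction n with
  | zero =>
    intro L hL a b x C δ hC hδ h1 h2 h3
    obtain ⟨t, ht⟩ := h2.exists
    exact ht (by simp)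
  | succ n ih =>
    intro L hL a b x C δ hC hδ h1 h2 h3
    set q : ℕ → ℤ := fun t => ∑ i, a i * x t i with hq
    set p : ℕ → ℤ := fun t => ∑ i, b i * x t i with hp
    set K : ℝ := ∑ j, |(a j : ℝ)| with hK
    have hK0 : 0 ≤ K := Finset.sum_nonneg fun _ _ => abs_nonneg _
    -- the large coordinate
    obtain ⟨i0, hi0, hfr⟩ : ∃ i0, a i0 ≠ 0 ∧ ∃ᶠ t in atTop, |(q t : ℝ)| ≤ K * |(x t i0 : ℝ)| := by
      by_contra hcon
      push Not at hcon
      have h4 : ∀ᶠ t in atTop, ∀ i, a i ≠ 0 → ¬ |(q t : ℝ)| ≤ K * |(x t i : ℝ)| := by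
        rw [Filter.eventually_all]
        intro i
        by_cases hi : a i = 0
        · exact Eventually.of_forall fun t h => absurd hi h
        · have h5 := hcon i hi
          filter_upwards [h5] with t ht _
          exact not_le.2 ht
      obtain ⟨t, ht, ht2⟩ := (h4.and h2).exists
      obtain ⟨i, hi, hle⟩ := exists_large a (x t) ht2
      exact ht i hi hle
    obtain ⟨ψ1, hψ1, hbig⟩ := Filter.extraction_of_frequently_atTop hfr
    have hψ1t := hψ1.tendsto_atTop
    have h1' := hψ1t.eventually h1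
    have h2' := hψ1t.eventually h2
    have h3' := hψ1t.eventually h3
    have hL' : Tendsto (fun t => L (ψ1 t)) atTop atTop := hL.comp hψ1t
    let φ : O →+* ℂ := (Complex.ofRealHom).comp ρ
    have hφ : ∀ x : O, φ x = ((ρ x : ℝ) : ℂ) := fun x => rfl
    have hreal : ∀ x : O, (φ x).im = 0 := fun x => Complex.ofReal_im _
    have hnorm : ∀ x : O, ‖φ x‖ = |ρ x| := fun x => by rw [hφ, Complex.norm_real]; rfl
    set v : Fin (n + 1) → O := fun i => ((a i : ℤ) : O) * θ - ((b i * d : ℤ) : O) with hv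
    have hρv : ∀ i, ρ (v i) = (d : ℝ) * (ξ * a i - b i) := by
      intro i
      simp only [hv]
      rw [map_sub, map_mul, map_intCast, map_intCast, hθ]
      push_cast
      ring
    have hvi0 : v i0 ≠ 0 := by
      intro h0
      have h4 := hρv i0
      rw [h0, map_zero] at h4
      have h5 : ξ * a i0 - b i0 = 0 := by
        rcases mul_eq_zero.1 h4.symm with h | h
        · exact absurd h (by exact_mod_cast hd)
        · exact h
      have h6 : ξ = ((b i0 : ℚ) / (a i0 : ℚ) : ℚ) := by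
        have h7 : (a i0 : ℝ) ≠ 0 := by exact_mod_cast hi0
        push_cast
        rw [eq_div_iff h7]
        linarith
      exact hirr ⟨_, h6.symm⟩
    have hXX : ∀ (u : ℤ), mon (gS S) (fun w => u.natAbs.factorization (gS S w)) *
        (u / ((spart S u.natAbs : ℕ) : ℤ)) = u := fun u => mul_quot hS _
    obtain ⟨y, hy, hfreq⟩ := relP O φ hreal (gS S) (gS_pos hS) i0 v hvi0 C (δ / 2) hC (by positivity)
      (fun t => L (ψ1 t)) hL' (fun t l w => (x (ψ1 t) l).natAbs.factorization (gS S w))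
      (fun t l => x (ψ1 t) l / ((spart S (x (ψ1 t) l).natAbs : ℕ) : ℤ))
      (by
        filter_upwards [h1'] with t ht l
        exact (mon_le_abs hS (ht l).1).trans (ht l).2)
      (by
        filter_upwards [h1'] with t ht l
        exact quot_ne hS (ht l).1)
      (by
        filter_upwards [h1'] with t ht l
        rw [quot_abs hS]
        exact (free_le_abs _ _).trans (ht l).2)
      (by
        filter_upwards [h1', h3', ev_const hL' (|(d : ℝ)| * K) (δ / 2) (by positivity)]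
          with t ht h4 h5
        simp only [hXX, quot_abs hS]
        rw [hnorm, map_sum]
        have h6 : ∑ l, ρ (v l * ((x (ψ1 t) l : ℤ) : O)) =
            (d : ℝ) * (ξ * (q (ψ1 t) : ℝ) - (p (ψ1 t) : ℝ)) := by
          simp only [map_mul, hρv, map_intCast, hq, hp]
          push_cast
          rw [Finset.mul_sum, ← Finset.sum_sub_distrib, Finset.mul_sum]
          exact Finset.sum_congr rfl fun l _ => by ring
        rw [h6, abs_mul]
        set u := x (ψ1 t) i0 with hu
        have hu0 : u ≠ 0 := (ht i0).1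
        have hfree : (1 : ℝ) ≤ free S u := by exact_mod_cast free_pos hS hu0
        have hprod : ∏ l, (free S (x (ψ1 t) l) : ℝ) =
            free S u * ∏ l ∈ univ.erase i0, (free S (x (ψ1 t) l) : ℝ) := by
          exact (Finset.mul_prod_erase univ (fun l => (free S (x (ψ1 t) l) : ℝ))
            (Finset.mem_univ i0)).symm
        have habs : |(u : ℝ)| = ((mon (gS S) (fun w => u.natAbs.factorization (gS S w)) : ℤ) : ℝ) *
            free S u := by
          have h7 := hXX u
          have h8 : (u : ℝ) = ((mon (gS S) (fun w => u.natAbs.factorization (gS S w)) : ℤ) : ℝ) *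
              ((u / ((spart S u.natAbs : ℕ) : ℤ) : ℤ) : ℝ) := by
            rw [← Int.cast_mul, h7]
          have h9 : (0 : ℝ) < ((mon (gS S) (fun w => u.natAbs.factorization (gS S w)) : ℤ) : ℝ) := by
            exact_mod_cast mon_pos (gS_pos hS) _
          conv_lhs => rw [h8]
          rw [abs_mul, abs_of_pos h9, quot_abs hS]
        have hP0 : 0 ≤ ∏ l ∈ univ.erase i0, (free S (x (ψ1 t) l) : ℝ) :=
          Finset.prod_nonneg fun _ _ => Nat.cast_nonneg _
        rw [hprod] at h4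
        have h10 := hbig t
        rw [habs] at h10
        set m := ((mon (gS S) (fun w => u.natAbs.factorization (gS S w)) : ℤ) : ℝ) with hm
        have hm0 : 0 < m := by
          rw [hm]
          exact_mod_cast mon_pos (gS_pos hS) _
        set Q := |ξ * (q (ψ1 t) : ℝ) - (p (ψ1 t) : ℝ)| with hQ
        set PP := ∏ l ∈ univ.erase i0, (free S (x (ψ1 t) l) : ℝ) with hPP
        have he := Real.exp_pos (-(δ * L (ψ1 t)))
        have h11 : Q * PP * free S u ≤ K * (m * free S u) * Real.exp (-(δ * L (ψ1 t))) := by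
          calc Q * PP * free S u = Q * (free S u * PP) := by ring
            _ ≤ |(q (ψ1 t) : ℝ)| * Real.exp (-(δ * L (ψ1 t))) := h4
            _ ≤ _ := mul_le_mul_of_nonneg_right h10 he.le
        have h12 : Q * PP ≤ K * m * Real.exp (-(δ * L (ψ1 t))) := by
          have h13 : 0 < (free S u : ℝ) := by linarith
          nlinarith
        calc |(d : ℝ)| * Q * PP = |(d : ℝ)| * (Q * PP) := by ring
          _ ≤ |(d : ℝ)| * (K * m * Real.exp (-(δ * L (ψ1 t)))) :=
              mul_le_mul_of_nonneg_left h12 (abs_nonneg _)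
          _ = (|(d : ℝ)| * K) * (m * Real.exp (-(δ * L (ψ1 t)))) := by ring
          _ ≤ Real.exp (δ / 2 * L (ψ1 t)) * (m * Real.exp (-(δ * L (ψ1 t)))) :=
              mul_le_mul_of_nonneg_right h5 (by positivity)
          _ = m * (Real.exp (δ / 2 * L (ψ1 t)) * Real.exp (-(δ * L (ψ1 t)))) := by ring
          _ = m * Real.exp (-(δ / 2 * L (ψ1 t))) := by
              rw [← Real.exp_add]; congr 2; ring)
    simp only [hXX] at hfreq
    obtain ⟨l0, hl0⟩ : ∃ l, y l ≠ 0 := by
      by_contra hcon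
      push Not at hcon
      exact hy (funext hcon)
    obtain ⟨ψ2, hψ2, hrel⟩ := Filter.extraction_of_frequently_atTop hfreq
    have hψ2t := hψ2.tendsto_atTop
    have helim : ∀ (c : Fin (n + 1) → ℤ) (t : ℕ), ∑ j : Fin n,
        (y l0 * c (l0.succAbove j) - y (l0.succAbove j) * c l0) * x (ψ1 (ψ2 t)) (l0.succAbove j) =
        y l0 * ∑ i, c i * x (ψ1 (ψ2 t)) i := by
      intro c t
      have h4 := hrel t
      rw [Fin.sum_univ_succAbove _ l0] at h4
      rw [Fin.sum_univ_succAbove _ l0]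
      have h5 : ∀ j : Fin n, (y l0 * c (l0.succAbove j) - y (l0.succAbove j) * c l0) *
          x (ψ1 (ψ2 t)) (l0.succAbove j) = y l0 * (c (l0.succAbove j) *
          x (ψ1 (ψ2 t)) (l0.succAbove j)) - c l0 * (y (l0.succAbove j) *
          x (ψ1 (ψ2 t)) (l0.succAbove j)) := fun j => by ring
      simp only [h5]
      rw [Finset.sum_sub_distrib, ← Finset.mul_sum, ← Finset.mul_sum]
      have h6 : ∑ j : Fin n, y (l0.succAbove j) * x (ψ1 (ψ2 t)) (l0.succAbove j) =
          -(y l0 * x (ψ1 (ψ2 t)) l0) := by linarith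
      rw [h6]
      ring
    refine ih (fun t => L (ψ1 (ψ2 t))) (hL'.comp hψ2t)
      (fun j => y l0 * a (l0.succAbove j) - y (l0.succAbove j) * a l0)
      (fun j => y l0 * b (l0.succAbove j) - y (l0.succAbove j) * b l0)
      (fun t j => x (ψ1 (ψ2 t)) (l0.succAbove j)) C δ hC hδ ?_ ?_ ?_
    · filter_upwards [hψ2t.eventually h1'] with t ht j
      exact ht _
    · filter_upwards [hψ2t.eventually h2'] with t ht
      rw [helim a t]
      exact mul_ne_zero hl0 ht
    · filter_upwards [hψ2t.eventually h3', hψ2t.eventually h1'] with t ht h1t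
      rw [helim a t, helim b t]
      push_cast
      have h4 : ξ * ((y l0 : ℝ) * ∑ i, (a i : ℝ) * (x (ψ1 (ψ2 t)) i : ℝ)) -
          (y l0 : ℝ) * ∑ i, (b i : ℝ) * (x (ψ1 (ψ2 t)) i : ℝ) =
          (y l0 : ℝ) * (ξ * (q (ψ1 (ψ2 t)) : ℝ) - (p (ψ1 (ψ2 t)) : ℝ)) := by
        simp only [hq, hp]
        push_cast
        ring
      have h5 : ∑ i, (a i : ℝ) * (x (ψ1 (ψ2 t)) i : ℝ) = (q (ψ1 (ψ2 t)) : ℝ) := by
        simp only [hq]
        push_cast
        rfl
      rw [h4, h5, abs_mul, abs_mul]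
      have h6 : ∏ j : Fin n, (free S (x (ψ1 (ψ2 t)) (l0.succAbove j)) : ℝ) ≤
          ∏ i, (free S (x (ψ1 (ψ2 t)) i) : ℝ) := by
        rw [Fin.prod_univ_succAbove _ l0]
        have h7 : (1 : ℝ) ≤ free S (x (ψ1 (ψ2 t)) l0) := by
          exact_mod_cast free_pos hS (h1t l0).1
        have h8 : 0 ≤ ∏ j : Fin n, (free S (x (ψ1 (ψ2 t)) (l0.succAbove j)) : ℝ) :=
          Finset.prod_nonneg fun _ _ => Nat.cast_nonneg _
        nlinarith
      calc |(y l0 : ℝ)| * |ξ * (q (ψ1 (ψ2 t)) : ℝ) - (p (ψ1 (ψ2 t)) : ℝ)| *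
            ∏ j : Fin n, (free S (x (ψ1 (ψ2 t)) (l0.succAbove j)) : ℝ)
          ≤ |(y l0 : ℝ)| * |ξ * (q (ψ1 (ψ2 t)) : ℝ) - (p (ψ1 (ψ2 t)) : ℝ)| *
            ∏ i, (free S (x (ψ1 (ψ2 t)) i) : ℝ) := by gcongr
        _ = |(y l0 : ℝ)| * (|ξ * (q (ψ1 (ψ2 t)) : ℝ) - (p (ψ1 (ψ2 t)) : ℝ)| *
            ∏ i, (free S (x (ψ1 (ψ2 t)) i) : ℝ)) := by ring
        _ ≤ |(y l0 : ℝ)| * (|(q (ψ1 (ψ2 t)) : ℝ)| * Real.exp (-(δ * L (ψ1 (ψ2 t))))) :=
            mul_le_mul_of_nonneg_left ht (abs_nonneg _)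
        _ = _ := by ring

end Pool.Agent.U773.RS
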