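import Mathlib
import Pool.Agent.U773.RS.Claim

/-! Ridout's theorem for sums and Lang's inequality near multiples of `S`-units. -/

set_option autoImplicit false

open Finset Filter Topology

namespace Pool.Agent.U773.RS

open Pool.Agent.TH419.WI Pool.Agent.N671.OPN Pool.Agent.U773.SF Pool.Agent.U773.WN

lemma min_dist {ξ : ℝ} (hirr : Irrational ξ) (N : ℕ) :
    ∃ m : ℝ, 0 < m ∧ ∀ q p : ℤ, q ≠ 0 → q.natAbs ≤ N → m ≤ |ξ * q - p| := by
  have hone : ∀ q : ℤ, q ≠ 0 → 0 < |ξ * q - round (ξ * q)| := by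
    intro q hq
    rw [abs_pos, sub_ne_zero]
    have h1 : Irrational (ξ * q) := hirr.mul_intCast hq
    exact h1.ne_int _
  induction N with
  | zero =>
    refine ⟨1, one_pos, fun q p hq hN => ?_⟩
    exact absurd (Int.natAbs_eq_zero.1 (Nat.le_zero.1 hN)) hq
  | succ N ih =>
    obtain ⟨m, hm, h⟩ := ih
    refine ⟨min m (min |ξ * ((N + 1 : ℕ) : ℤ) - round (ξ * ((N + 1 : ℕ) : ℤ))|
      |ξ * ((-((N + 1 : ℕ) : ℤ) : ℤ) : ℝ) - round (ξ * ((-((N + 1 : ℕ) : ℤ) : ℤ) : ℝ))|),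
      lt_min hm (lt_min (hone _ (by positivity)) (hone _ (by
        rw [neg_ne_zero]; positivity))), fun q p hq hN => ?_⟩
    rcases Nat.lt_or_ge q.natAbs (N + 1) with h1 | h1
    · exact (min_le_left _ _).trans (h q p hq (by omega))
    · have h2 : q.natAbs = N + 1 := by omega
      refine (min_le_right _ _).trans ?_
      rcases Int.natAbs_eq q with h3 | h3
      · rw [h2] at h3
        refine (min_le_left _ _).trans ?_
        rw [h3]
        exact round_le _ _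
      · rw [h2] at h3
        refine (min_le_right _ _).trans ?_
        rw [h3]
        exact round_le _ _

/-- **Ridout's theorem for sums.** -/
theorem main {ξ : ℝ} (hξ : IsAlgebraic ℚ ξ) (hirr : Irrational ξ) {S : Finset ℕ}
    (hS : ∀ p ∈ S, p.Prime) (r : ℕ) (a b : Fin r → ℤ) (ε : ℝ) (hε : 0 < ε) :
    ∃ c : ℝ, 0 < c ∧ ∀ (x : Fin r → ℤ) (H : ℝ), (∀ i, x i ≠ 0 ∧ |(x i : ℝ)| ≤ H) →
      ∑ i, a i * x i ≠ 0 →
      c * |((∑ i, a i * x i : ℤ) : ℝ)| * H ^ (-ε) ≤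
        |ξ * ((∑ i, a i * x i : ℤ) : ℝ) - ((∑ i, b i * x i : ℤ) : ℝ)| *
          ∏ i, (free S (x i) : ℝ) := by
  by_contra hcon
  push Not at hcon
  choose x H hx hq0 hlt using fun t : ℕ => hcon (1 / ((t : ℝ) + 1)) (by positivity)
  have hH1 : ∀ t, 1 ≤ H t := by
    intro t
    obtain ⟨i, -, hi⟩ : ∃ i ∈ (univ : Finset (Fin r)), a i * x t i ≠ 0 :=
      Finset.exists_ne_zero_of_sum_ne_zero (hq0 t)
    have h1 : 1 ≤ |x t i| := Int.one_le_abs (hx t i).1
    have h2 : (1 : ℝ) ≤ |(x t i : ℝ)| := by exact_mod_cast h1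
    exact h2.trans (hx t i).2
  set K : ℝ := ∑ j, |(a j : ℝ)| with hK
  have hK0 : 0 ≤ K := Finset.sum_nonneg fun _ _ => abs_nonneg _
  have hqK : ∀ t, |((∑ i, a i * x t i : ℤ) : ℝ)| ≤ K * H t := by
    intro t
    obtain ⟨i, -, hi⟩ := exists_large a (x t) (hq0 t)
    exact hi.trans (mul_le_mul_of_nonneg_left (hx t i).2 hK0)
  have hfree : ∀ t, 1 ≤ ∏ i, (free S (x t i) : ℝ) := by
    intro t
    have h2 := Finset.prod_le_prod (s := Finset.univ) (f := fun _ : Fin r => (1 : ℝ))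
      (g := fun l => (free S (x t l) : ℝ)) (fun _ _ => zero_le_one)
      (fun l _ => by exact_mod_cast free_pos hS (hx t l).1)
    simpa using h2
  have hLt : Tendsto (fun t => Real.log (H t)) atTop atTop := by
    rw [tendsto_atTop]
    intro B
    obtain ⟨m, hm, hmin⟩ := min_dist hirr ⌈K * Real.exp B⌉₊
    filter_upwards [eventually_ge_atTop ⌈K * Real.exp B / m⌉₊] with t ht
    by_contra hlog
    push Not at hlog
    have hHB : H t < Real.exp B := (Real.log_lt_iff_lt_exp (by linarith [hH1 t])).1 hlog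
    have h1 : (((∑ i, a i * x t i : ℤ)).natAbs : ℝ) ≤ K * Real.exp B := by
      rw [Nat.cast_natAbs, Int.cast_abs]
      exact (hqK t).trans (mul_le_mul_of_nonneg_left hHB.le hK0)
    have h2 : (∑ i, a i * x t i : ℤ).natAbs ≤ ⌈K * Real.exp B⌉₊ := by
      have := h1.trans (Nat.le_ceil _)
      exact_mod_cast this
    have h3 := hmin _ (∑ i, b i * x t i) (hq0 t) h2
    have h4 := hlt t
    have h5 : H t ^ (-ε) ≤ 1 := Real.rpow_le_one_of_one_le_of_nonpos (hH1 t) (by linarith)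
    have h6 : (m : ℝ) < 1 / ((t : ℝ) + 1) * (K * Real.exp B) := by
      calc m ≤ |ξ * ((∑ i, a i * x t i : ℤ) : ℝ) - ((∑ i, b i * x t i : ℤ) : ℝ)| * 1 := by
            rw [mul_one]; exact h3
        _ ≤ |ξ * ((∑ i, a i * x t i : ℤ) : ℝ) - ((∑ i, b i * x t i : ℤ) : ℝ)| *
            ∏ i, (free S (x t i) : ℝ) := mul_le_mul_of_nonneg_left (hfree t) (abs_nonneg _)
        _ < 1 / ((t : ℝ) + 1) * |((∑ i, a i * x t i : ℤ) : ℝ)| * H t ^ (-ε) := h4
        _ ≤ 1 / ((t : ℝ) + 1) * |((∑ i, a i * x t i : ℤ) : ℝ)| * 1 :=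
            mul_le_mul_of_nonneg_left h5 (by positivity)
        _ ≤ 1 / ((t : ℝ) + 1) * (K * Real.exp B) := by
            rw [mul_one]
            apply mul_le_mul_of_nonneg_left _ (by positivity)
            exact (hqK t).trans (mul_le_mul_of_nonneg_left hHB.le hK0)
    have h7 : K * Real.exp B / m ≤ t := (Nat.le_ceil _).trans (by exact_mod_cast ht)
    rw [div_le_iff₀ hm] at h7
    rw [one_div, inv_mul_eq_div, lt_div_iff₀ (by positivity)] at h6
    nlinarith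
  obtain ⟨O, d, hd, hfin, hO⟩ := exists_order (fun _ : Fin 1 => ξ) (fun _ => hξ)
  let ρ : O →+* ℝ := O.val.toRingHom
  refine claim O ρ hS hirr ⟨(d : ℝ) * ξ, hO 0⟩ d hd rfl r _ hLt a b x 1 ε zero_le_one hε ?_ ?_ ?_
  · refine Eventually.of_forall fun t i => ⟨(hx t i).1, ?_⟩
    rw [one_mul, Real.exp_log (by linarith [hH1 t])]
    exact (hx t i).2
  · exact Eventually.of_forall hq0
  · refine Eventually.of_forall fun t => ?_
    refine (hlt t).le.trans ?_
    have h1 : H t ^ (-ε) = Real.exp (-(ε * Real.log (H t))) := by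
      rw [Real.rpow_def_of_pos (by linarith [hH1 t])]
      congr 1
      ring
    rw [h1]
    have h2 : (1 : ℝ) / ((t : ℝ) + 1) ≤ 1 := by
      rw [div_le_one (by positivity)]
      have : (0 : ℝ) ≤ t := Nat.cast_nonneg _
      linarith
    have h3 := abs_nonneg ((∑ i, a i * x t i : ℤ) : ℝ)
    have h4 := Real.exp_pos (-(ε * Real.log (H t)))
    calc 1 / ((t : ℝ) + 1) * |((∑ i, a i * x t i : ℤ) : ℝ)| * Real.exp (-(ε * Real.log (H t)))
        ≤ 1 * |((∑ i, a i * x t i : ℤ) : ℝ)| * Real.exp (-(ε * Real.log (H t))) := by gcongr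
      _ = _ := by rw [one_mul]

/-- `N` is at a distance at most `u q ^ (-δ)` from a multiple of an `S`-unit `u` between `q ^ δ`
and `q` -/
def Near (S : Finset ℕ) (δ : ℝ) (q : ℕ) (N : ℤ) : Prop :=
  ∃ u : ℕ, (∀ p : ℕ, p.Prime → p ∣ u → p ∈ S) ∧ (q : ℝ) ^ δ ≤ u ∧ u ≤ q ∧
    ∃ j : ℤ, |(N : ℝ) - j * u| ≤ u * (q : ℝ) ^ (-δ)

lemma split {S : Finset ℕ} (hS : ∀ p ∈ S, p.Prime) {δ : ℝ} (hδ : 0 < δ) {B : ℝ} (hB : 1 ≤ B)
    {q : ℕ} (hq : 2 ≤ q) {N : ℤ} (hN0 : N ≠ 0) (hN : |(N : ℝ)| ≤ B * q) (h : Near S δ q N) :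
    (free S N : ℝ) ≤ (B + 1) * (q : ℝ) ^ (1 - δ) ∨ ∃ v w : ℤ, v ≠ 0 ∧ w ≠ 0 ∧ v + w = N ∧
      (free S v : ℝ) * free S w ≤ (B + 1) * (q : ℝ) ^ (1 - δ) ∧ |(v : ℝ)| ≤ (B + 1) * q ∧
      |(w : ℝ)| ≤ (B + 1) * q := by
  obtain ⟨u, huS, huq, hu1, j, hj⟩ := h
  have hq0 : (0 : ℝ) < q := by exact_mod_cast (by omega : 0 < q)
  have hqd : (1 : ℝ) ≤ (q : ℝ) ^ δ :=
    Real.one_le_rpow (by exact_mod_cast (by omega : 1 ≤ q)) hδ.le
  have hu0 : (0 : ℝ) < u := by linarith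
  have hu0' : u ≠ 0 := by
    rintro rfl
    simp at hu0
  have huq' : (u : ℝ) ≤ q := by exact_mod_cast hu1
  have hqmd : (0 : ℝ) < (q : ℝ) ^ (-δ) := Real.rpow_pos_of_pos hq0 _
  have e1 : (q : ℝ) ^ (1 - δ) = q * (q : ℝ) ^ (-δ) := by
    rw [sub_eq_add_neg, Real.rpow_add hq0, Real.rpow_one]
  have e2 : (q : ℝ) ^ δ * (q : ℝ) ^ (-δ) = 1 := by
    rw [← Real.rpow_add hq0, add_neg_cancel, Real.rpow_zero]
  have hqmd1 : (q : ℝ) ^ (-δ) ≤ 1 := by nlinarith
  have hfu : free S (u : ℤ) = 1 := free_unit hS (by exact_mod_cast hu0') (by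
    intro p hp hd
    exact huS p hp (by simpa using hd))
  have huS' : (u : ℝ) * (q : ℝ) ^ (-δ) ≤ q * (q : ℝ) ^ (-δ) := mul_le_mul_of_nonneg_right huq' hqmd.le
  by_cases hw : N - j * u = 0
  · left
    have h1 : N = j * u := by linarith
    have hj0 : j ≠ 0 := by
      rintro rfl
      rw [zero_mul] at h1
      exact hN0 h1
    rw [h1, free_mul hS hj0 (by exact_mod_cast hu0'), hfu, mul_one]
    have h2 := free_le_abs S j
    have h3 : |(j : ℝ)| * u ≤ B * q := by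
      rw [h1] at hN
      push_cast at hN
      rwa [abs_mul, abs_of_pos hu0] at hN
    have h4 : |(j : ℝ)| * (q : ℝ) ^ δ ≤ B * q :=
      (mul_le_mul_of_nonneg_left huq (abs_nonneg _)).trans h3
    have h5 : |(j : ℝ)| ≤ B * (q * (q : ℝ) ^ (-δ)) := by
      calc |(j : ℝ)| = (|(j : ℝ)| * (q : ℝ) ^ δ) * (q : ℝ) ^ (-δ) := by rw [mul_assoc, e2, mul_one]
        _ ≤ (B * q) * (q : ℝ) ^ (-δ) := mul_le_mul_of_nonneg_right h4 hqmd.le
        _ = _ := by ring
    rw [e1]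
    have : 0 ≤ q * (q : ℝ) ^ (-δ) := by positivity
    nlinarith
  · by_cases hj0 : j = 0
    · left
      rw [hj0] at hj
      simp only [Int.cast_zero, zero_mul, sub_zero] at hj
      have h2 := free_le_abs S N
      rw [e1]
      have : 0 ≤ q * (q : ℝ) ^ (-δ) := by positivity
      nlinarith
    · right
      have hwR : (((N - j * u : ℤ)) : ℝ) = (N : ℝ) - j * u := by push_cast; ring
      have hwb : |(((N - j * u : ℤ)) : ℝ)| ≤ u * (q : ℝ) ^ (-δ) := by rw [hwR]; exact hj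
      have hju : |(j : ℝ)| * u ≤ B * q + u * (q : ℝ) ^ (-δ) := by
        calc |(j : ℝ)| * u = |(j : ℝ) * u| := by rw [abs_mul, abs_of_pos hu0]
          _ = |(N : ℝ) - (N - j * u)| := by congr 1; ring
          _ ≤ |(N : ℝ)| + |(N : ℝ) - j * u| := abs_sub _ _
          _ ≤ _ := add_le_add hN hj
      refine ⟨j * u, N - j * u, mul_ne_zero hj0 (by exact_mod_cast hu0'), hw, by ring, ?_, ?_, ?_⟩
      · rw [free_mul hS hj0 (by exact_mod_cast hu0'), hfu, mul_one]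
        have h4 := free_le_abs S j
        have h5 := (free_le_abs S (N - j * u)).trans hwb
        calc (free S j : ℝ) * free S (N - j * u) ≤ |(j : ℝ)| * (u * (q : ℝ) ^ (-δ)) :=
              mul_le_mul h4 h5 (Nat.cast_nonneg _) (abs_nonneg _)
          _ = (|(j : ℝ)| * u) * (q : ℝ) ^ (-δ) := by ring
          _ ≤ (B * q + u * (q : ℝ) ^ (-δ)) * (q : ℝ) ^ (-δ) :=
              mul_le_mul_of_nonneg_right hju hqmd.le
          _ ≤ (B * q + q * 1) * (q : ℝ) ^ (-δ) := by gcongr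
          _ = (B + 1) * (q : ℝ) ^ (1 - δ) := by rw [e1]; ring
      · push_cast
        rw [abs_mul, abs_of_pos hu0]
        calc |(j : ℝ)| * u ≤ B * q + u * (q : ℝ) ^ (-δ) := hju
          _ ≤ B * q + q * 1 := by gcongr
          _ = _ := by ring
      · calc |(((N - j * u : ℤ)) : ℝ)| ≤ u * (q : ℝ) ^ (-δ) := hwb
          _ ≤ q * 1 := by gcongr
          _ ≤ (B + 1) * q := by nlinarith

/-- the inequality for fractions `p / q` with given decompositions -/
lemma fin {ξ : ℝ} (hξ : IsAlgebraic ℚ ξ) (hirr : Irrational ξ) {S : Finset ℕ}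
    (hS : ∀ p ∈ S, p.Prime) (r : ℕ) (a b : Fin r → ℤ) {δ ε : ℝ} (hε : 0 < ε) {B : ℝ} (hB : 1 ≤ B) :
    ∃ c : ℝ, 0 < c ∧ ∀ (x : Fin r → ℤ) (p : ℤ) (q : ℕ), 1 ≤ q →
      (∀ i, x i ≠ 0 ∧ |(x i : ℝ)| ≤ B * q) → ∑ i, a i * x i = q → ∑ i, b i * x i = p →
      ∏ i, (free S (x i) : ℝ) ≤ B * (q : ℝ) ^ (2 - δ) →
      c * (q : ℝ) ^ (-2 + δ - ε) ≤ |ξ - p / q| := by
  obtain ⟨c, hc, h⟩ := main hξ hirr hS r a b ε hε
  refine ⟨c * B ^ (-ε) / B, by positivity, ?_⟩
  intro x p q hq hx ha hb hfree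
  have hq0 : (0 : ℝ) < q := by exact_mod_cast hq
  have h1 := h x (B * q) hx (by rw [ha]; exact_mod_cast (by omega : q ≠ 0))
  rw [ha, hb, Int.cast_natCast, abs_of_pos hq0, Real.mul_rpow (by linarith) hq0.le] at h1
  have h2 : |ξ * q - p| = |ξ - p / q| * q := by
    rw [← abs_of_pos hq0, ← abs_mul, abs_of_pos hq0]
    congr 1
    field_simp
  rw [h2] at h1
  have h3 : c * q * (B ^ (-ε) * (q : ℝ) ^ (-ε)) ≤ |ξ - p / q| * q * (B * (q : ℝ) ^ (2 - δ)) :=
    h1.trans (mul_le_mul_of_nonneg_left hfree (by positivity))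
  have e1 : (q : ℝ) ^ (-2 + δ - ε) * (q : ℝ) ^ (2 - δ) = (q : ℝ) ^ (-ε) := by
    rw [← Real.rpow_add hq0]; congr 1; ring
  have hP : (0 : ℝ) < (q : ℝ) ^ (2 - δ) := Real.rpow_pos_of_pos hq0 _
  have hB0 : 0 < B := by linarith
  rw [div_mul_eq_mul_div, div_le_iff₀ hB0]
  have h4 : (c * B ^ (-ε) * (q : ℝ) ^ (-2 + δ - ε)) * (q * (q : ℝ) ^ (2 - δ)) ≤
      (|ξ - p / q| * B) * (q * (q : ℝ) ^ (2 - δ)) := by
    calc (c * B ^ (-ε) * (q : ℝ) ^ (-2 + δ - ε)) * (q * (q : ℝ) ^ (2 - δ))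
        = c * q * (B ^ (-ε) * ((q : ℝ) ^ (-2 + δ - ε) * (q : ℝ) ^ (2 - δ))) := by ring
      _ = c * q * (B ^ (-ε) * (q : ℝ) ^ (-ε)) := by rw [e1]
      _ ≤ |ξ - p / q| * q * (B * (q : ℝ) ^ (2 - δ)) := h3
      _ = _ := by ring
  exact le_of_mul_le_mul_right h4 (by positivity)

/-- **Lang's inequality, with a power saving, near multiples of `S`-units.** -/
theorem near {ξ : ℝ} (hξ : IsAlgebraic ℚ ξ) (hirr : Irrational ξ) {S : Finset ℕ}
    (hS : ∀ p ∈ S, p.Prime) {δ ε : ℝ} (hδ : 0 < δ) (hε : 0 < ε) :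
    ∃ c : ℝ, 0 < c ∧ ∀ (p : ℤ) (q : ℕ), 2 ≤ q → (Near S δ q q ∨ Near S δ q p) →
      c * (q : ℝ) ^ (-2 + δ - ε) ≤ |ξ - p / q| := by
  set B : ℝ := |ξ| + 1 with hB
  have hB1 : 1 ≤ B := by have := abs_nonneg ξ; linarith
  set B' : ℝ := (B + 1) * (B + 1) with hB'
  have hBB : B + 1 ≤ B' := by nlinarith
  have hB'1 : 1 ≤ B' := by nlinarith
  obtain ⟨c1, hc1, h1⟩ := fin hξ hirr hS 2 ![1, 0] ![0, 1] (δ := δ) hε hB'1
  obtain ⟨c2, hc2, h2⟩ := fin hξ hirr hS 3 ![1, 1, 0] ![0, 0, 1] (δ := δ) hε hB'1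
  obtain ⟨c3, hc3, h3⟩ := fin hξ hirr hS 3 ![1, 0, 0] ![0, 1, 1] (δ := δ) hε hB'1
  have hξ0 : 0 < |ξ| := abs_pos.2 hirr.ne_zero
  refine ⟨min (min c1 c2) (min c3 (min |ξ| 1)), by positivity, ?_⟩
  intro p q hq hnear
  have hq0 : (0 : ℝ) < q := by exact_mod_cast (by omega : 0 < q)
  have hq1 : (1 : ℝ) ≤ q := by exact_mod_cast (by omega : 1 ≤ q)
  have hδ1 : δ ≤ 1 := by
    have h4 : ∀ N : ℤ, Near S δ q N → δ ≤ 1 := by
      rintro N ⟨u, -, h5, h6, -⟩
      by_contra hgt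
      push Not at hgt
      have h7 : (q : ℝ) ^ (1 : ℝ) < (q : ℝ) ^ δ :=
        Real.rpow_lt_rpow_of_exponent_lt (by exact_mod_cast (by omega : 1 < q)) hgt
      rw [Real.rpow_one] at h7
      have : (u : ℝ) ≤ q := by exact_mod_cast h6
      linarith
    rcases hnear with h | h
    · exact h4 _ h
    · exact h4 _ h
  have hE : (q : ℝ) ^ (-2 + δ - ε) ≤ 1 :=
    Real.rpow_le_one_of_one_le_of_nonpos hq1 (by linarith)
  have hE0 : (0 : ℝ) < (q : ℝ) ^ (-2 + δ - ε) := Real.rpow_pos_of_pos hq0 _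
  have hm1 : min (min c1 c2) (min c3 (min |ξ| 1)) ≤ c1 := (min_le_left _ _).trans (min_le_left _ _)
  have hm2 : min (min c1 c2) (min c3 (min |ξ| 1)) ≤ c2 := (min_le_left _ _).trans (min_le_right _ _)
  have hm3 : min (min c1 c2) (min c3 (min |ξ| 1)) ≤ c3 := (min_le_right _ _).trans (min_le_left _ _)
  have hm4 : min (min c1 c2) (min c3 (min |ξ| 1)) ≤ |ξ| :=
    (min_le_right _ _).trans ((min_le_right _ _).trans (min_le_left _ _))
  have hm5 : min (min c1 c2) (min c3 (min |ξ| 1)) ≤ 1 :=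
    (min_le_right _ _).trans ((min_le_right _ _).trans (min_le_right _ _))
  set c := min (min c1 c2) (min c3 (min |ξ| 1)) with hc
  have hc0 : 0 < c := by positivity
  by_cases hp0 : p = 0
  · rw [hp0, Int.cast_zero, zero_div, sub_zero]
    nlinarith
  by_cases hpB : B * q < |(p : ℝ)|
  · have h4 : 1 ≤ |ξ - p / q| := by
      have h5 : B < |(p : ℝ) / q| := by
        rw [abs_div, abs_of_pos hq0, lt_div_iff₀ hq0]
        exact hpB
      have h6 := abs_sub_abs_le_abs_sub ((p : ℝ) / q) ξ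
      rw [abs_sub_comm] at h6
      linarith
    nlinarith
  push Not at hpB
  have e1 : (q : ℝ) ^ (2 - δ) = q * (q : ℝ) ^ (1 - δ) := by
    rw [show (2 : ℝ) - δ = 1 + (1 - δ) by ring, Real.rpow_add hq0, Real.rpow_one]
  have hqd : (0 : ℝ) < (q : ℝ) ^ (1 - δ) := Real.rpow_pos_of_pos hq0 _
  have hqne : (q : ℤ) ≠ 0 := by exact_mod_cast (by omega : q ≠ 0)
  have hfq : (free S (q : ℤ) : ℝ) ≤ q := by
    have := free_le_abs S (q : ℤ)
    rwa [Int.cast_natCast, abs_of_pos hq0] at this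
  have hfp : (free S p : ℝ) ≤ B * q := (free_le_abs S p).trans hpB
  have hfq0 : (0 : ℝ) ≤ free S (q : ℤ) := Nat.cast_nonneg _
  have hfp0 : (0 : ℝ) ≤ free S p := Nat.cast_nonneg _
  have hqB' : |(((q : ℤ)) : ℝ)| ≤ B' * q := by
    rw [Int.cast_natCast, abs_of_pos hq0]
    nlinarith
  have hpB' : |(p : ℝ)| ≤ B' * q := by nlinarith
  rcases hnear with hn | hn
  · rcases split hS hδ hB1 hq hqne (by
      rw [Int.cast_natCast, abs_of_pos hq0]; nlinarith) hn with h | ⟨v, w, hv, hw, hvw, hf, hvb, hwb⟩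
    · have h4 := h1 ![(q : ℤ), p] p q (by omega) (by
        intro i
        fin_cases i
        · exact ⟨hqne, hqB'⟩
        · exact ⟨hp0, hpB'⟩) (by simp [Fin.sum_univ_two]) (by simp [Fin.sum_univ_two]) (by
        rw [Fin.prod_univ_two, e1]
        simp only [Matrix.cons_val_zero, Matrix.cons_val_one]
        calc (free S (q : ℤ) : ℝ) * free S p ≤ ((B + 1) * (q : ℝ) ^ (1 - δ)) * (B * q) :=
              mul_le_mul h hfp hfp0 (by positivity)
          _ ≤ ((B + 1) * (q : ℝ) ^ (1 - δ)) * ((B + 1) * q) := by gcongr; linarith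
          _ = _ := by rw [hB']; ring)
      exact le_trans (mul_le_mul_of_nonneg_right hm1 hE0.le) h4
    · have h4 := h2 ![v, w, p] p q (by omega) (by
        intro i
        fin_cases i
        · exact ⟨hv, hvb.trans (mul_le_mul_of_nonneg_right hBB hq0.le)⟩
        · exact ⟨hw, hwb.trans (mul_le_mul_of_nonneg_right hBB hq0.le)⟩
        · exact ⟨hp0, hpB'⟩) (by simpa [Fin.sum_univ_three] using hvw)
        (by simp [Fin.sum_univ_three]) (by
        rw [Fin.prod_univ_three, e1]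
        simp only [Matrix.cons_val_zero, Matrix.cons_val_one, Matrix.cons_val_two, Matrix.head_cons,
          Matrix.tail_cons]
        calc (free S v : ℝ) * free S w * free S p ≤ ((B + 1) * (q : ℝ) ^ (1 - δ)) * (B * q) :=
              mul_le_mul hf hfp hfp0 (by positivity)
          _ ≤ ((B + 1) * (q : ℝ) ^ (1 - δ)) * ((B + 1) * q) := by gcongr; linarith
          _ = _ := by rw [hB']; ring)
      exact le_trans (mul_le_mul_of_nonneg_right hm2 hE0.le) h4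
  · rcases split hS hδ hB1 hq hp0 hpB hn with h | ⟨v, w, hv, hw, hvw, hf, hvb, hwb⟩
    · have h4 := h1 ![(q : ℤ), p] p q (by omega) (by
        intro i
        fin_cases i
        · exact ⟨hqne, hqB'⟩
        · exact ⟨hp0, hpB'⟩) (by simp [Fin.sum_univ_two]) (by simp [Fin.sum_univ_two]) (by
        rw [Fin.prod_univ_two, e1]
        simp only [Matrix.cons_val_zero, Matrix.cons_val_one]
        calc (free S (q : ℤ) : ℝ) * free S p ≤ q * ((B + 1) * (q : ℝ) ^ (1 - δ)) :=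
              mul_le_mul hfq h hfp0 (by positivity)
          _ = (B + 1) * (q * (q : ℝ) ^ (1 - δ)) := by ring
          _ ≤ B' * (q * (q : ℝ) ^ (1 - δ)) := mul_le_mul_of_nonneg_right hBB (by positivity))
      exact le_trans (mul_le_mul_of_nonneg_right hm1 hE0.le) h4
    · have h4 := h3 ![(q : ℤ), v, w] p q (by omega) (by
        intro i
        fin_cases i
        · exact ⟨hqne, hqB'⟩
        · exact ⟨hv, hvb.trans (mul_le_mul_of_nonneg_right hBB hq0.le)⟩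
        · exact ⟨hw, hwb.trans (mul_le_mul_of_nonneg_right hBB hq0.le)⟩)
        (by simp [Fin.sum_univ_three])
        (by simpa [Fin.sum_univ_three] using hvw) (by
        rw [Fin.prod_univ_three, e1]
        simp only [Matrix.cons_val_zero, Matrix.cons_val_one, Matrix.cons_val_two, Matrix.head_cons,
          Matrix.tail_cons]
        calc (free S (q : ℤ) : ℝ) * free S v * free S w = free S (q : ℤ) * (free S v * free S w) := by
              ring
          _ ≤ q * ((B + 1) * (q : ℝ) ^ (1 - δ)) :=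
              mul_le_mul hfq hf (by positivity) (by positivity)
          _ = (B + 1) * (q * (q : ℝ) ^ (1 - δ)) := by ring
          _ ≤ B' * (q * (q : ℝ) ^ (1 - δ)) := mul_le_mul_of_nonneg_right hBB (by positivity))
      exact le_trans (mul_le_mul_of_nonneg_right hm3 hE0.le) h4

end Pool.Agent.U773.RS
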