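import Mathlib
import Pool.Agent.U773.RS.Main

/-! Digits of the denominators and numerators of good approximations. -/

set_option autoImplicit false

open Finset Filter Topology

namespace Pool.Agent.U773.RS

open Pool.Agent.U773.SF Pool.Agent.U773.WN

lemma Near.neg {S : Finset ℕ} {δ : ℝ} {q : ℕ} {N : ℤ} (h : Near S δ q N) : Near S δ q (-N) := by
  obtain ⟨u, h1, h2, h3, j, hj⟩ := h
  refine ⟨u, h1, h2, h3, -j, ?_⟩
  have : (((-N : ℤ)) : ℝ) - ((-j : ℤ) : ℝ) * u = -((N : ℝ) - j * u) := by push_cast; ring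
  rw [this, abs_neg]
  exact hj

lemma near_digits {b : ℕ} (hb : 2 ≤ b) {δ : ℝ} {q M j l : ℕ} (hq : 1 ≤ q)
    (h1 : b ^ (j + l) ≤ q) (h2 : (q : ℝ) ^ δ ≤ (b : ℝ) ^ l)
    (h : M / b ^ j % b ^ l = 0 ∨ M / b ^ j % b ^ l = b ^ l - 1) :
    Near b.primeFactors δ q M := by
  have hb0 : 0 < b := by omega
  have hq0 : (0 : ℝ) < q := by exact_mod_cast hq
  have hbR : (1 : ℝ) ≤ b := by exact_mod_cast hb0
  have hbj : (0 : ℝ) < (b : ℝ) ^ j := by positivity
  have hbj1 : (1 : ℝ) ≤ (b : ℝ) ^ j := one_le_pow₀ hbR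
  have hbl : (0 : ℝ) < (b : ℝ) ^ l := by positivity
  refine ⟨b ^ (j + l), ?_, ?_, h1, ?_⟩
  · intro p hp hd
    exact Nat.mem_primeFactors.2 ⟨hp, hp.dvd_of_dvd_pow hd, by omega⟩
  · push_cast
    rw [pow_add]
    nlinarith
  · have hkey : (b : ℝ) ^ j ≤ (b : ℝ) ^ (j + l) * (q : ℝ) ^ (-δ) := by
      have e2 : (q : ℝ) ^ δ * (q : ℝ) ^ (-δ) = 1 := by
        rw [← Real.rpow_add hq0, add_neg_cancel, Real.rpow_zero]
      have h3 : (0 : ℝ) < (q : ℝ) ^ (-δ) := Real.rpow_pos_of_pos hq0 _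
      have h4 : 1 ≤ (b : ℝ) ^ l * (q : ℝ) ^ (-δ) := by
        rw [← e2]
        exact mul_le_mul_of_nonneg_right h2 h3.le
      rw [pow_add]
      nlinarith
    have hmod : M % b ^ (j + l) = M % b ^ j + b ^ j * (M / b ^ j % b ^ l) := by
      rw [pow_add, Nat.mod_mul]
    have hdiv : (M : ℝ) = (b : ℝ) ^ (j + l) * ((M / b ^ (j + l) : ℕ) : ℝ) +
        ((M % b ^ (j + l) : ℕ) : ℝ) := by
      exact_mod_cast (Nat.div_add_mod M (b ^ (j + l))).symm
    have hlt : ((M % b ^ j : ℕ) : ℝ) < (b : ℝ) ^ j := by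
      exact_mod_cast Nat.mod_lt M (by positivity : 0 < b ^ j)
    have hge : (0 : ℝ) ≤ ((M % b ^ j : ℕ) : ℝ) := Nat.cast_nonneg _
    have e3 : ((b ^ (j + l) : ℕ) : ℝ) = (b : ℝ) ^ (j + l) := by push_cast; rfl
    rcases h with h | h
    · refine ⟨((M / b ^ (j + l) : ℕ) : ℤ), ?_⟩
      rw [h, mul_zero, add_zero] at hmod
      rw [hmod] at hdiv
      rw [Int.cast_natCast, Int.cast_natCast, e3]
      refine le_trans ?_ hkey
      rw [abs_le]
      constructor <;> linarith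
    · refine ⟨((M / b ^ (j + l) : ℕ) : ℤ) + 1, ?_⟩
      rw [h] at hmod
      have h5 : ((M % b ^ (j + l) : ℕ) : ℝ) = ((M % b ^ j : ℕ) : ℝ) +
          (b : ℝ) ^ j * ((b : ℝ) ^ l - 1) := by
        rw [hmod]
        have : 1 ≤ b ^ l := Nat.one_le_pow _ _ hb0
        push_cast [Nat.cast_sub this]
        ring
      rw [h5] at hdiv
      rw [Int.cast_natCast, Int.cast_add, Int.cast_natCast, Int.cast_one, e3]
      refine le_trans ?_ hkey
      have e4 : (b : ℝ) ^ (j + l) = (b : ℝ) ^ j * (b : ℝ) ^ l := pow_add _ _ _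
      have e5 : (M : ℝ) - (((M / b ^ (j + l) : ℕ) : ℝ) + 1) * (b : ℝ) ^ (j + l) =
          ((M % b ^ j : ℕ) : ℝ) - (b : ℝ) ^ j := by
        rw [hdiv, e4]
        ring
      rw [e5, abs_le]
      constructor <;> linarith

/-- no long runs of zeros or of the highest digit -/
theorem digits {ξ : ℝ} (hξ : IsAlgebraic ℚ ξ) (hirr : Irrational ξ) (b : ℕ) (hb : 2 ≤ b) (δ : ℝ)
    (hδ : 0 < δ) :
    ∃ Q : ℕ, ∀ (p : ℤ) (q : ℕ), Q ≤ q → |ξ - p / q| ≤ 1 / (q : ℝ) ^ 2 →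
      ∀ M j l : ℕ, (M = q ∨ M = p.natAbs) → b ^ (j + l) ≤ q → (q : ℝ) ^ δ ≤ (b : ℝ) ^ l →
        M / b ^ j % b ^ l ≠ 0 ∧ M / b ^ j % b ^ l ≠ b ^ l - 1 := by
  obtain ⟨c, hc, h⟩ := near hξ hirr (S := b.primeFactors)
    (fun p hp => Nat.prime_of_mem_primeFactors hp) hδ (ε := δ / 2) (by positivity)
  have h1 : Tendsto (fun q : ℕ => (q : ℝ) ^ (δ / 2)) atTop atTop :=
    (tendsto_rpow_atTop (by positivity)).comp tendsto_natCast_atTop_atTop
  obtain ⟨Q0, hQ0⟩ := (h1.eventually_gt_atTop (1 / c)).exists_forall_of_atTop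
  refine ⟨Q0 + 2, ?_⟩
  intro p q hq happ M j l hM hjl hql
  have hq0 : (0 : ℝ) < q := by exact_mod_cast (by omega : 0 < q)
  by_contra hcon
  have hcon' : M / b ^ j % b ^ l = 0 ∨ M / b ^ j % b ^ l = b ^ l - 1 := by
    by_contra h3
    push Not at h3
    exact hcon h3
  have hN := near_digits hb (by omega : 1 ≤ q) hjl hql hcon'
  have hN2 : Near b.primeFactors δ q q ∨ Near b.primeFactors δ q p := by
    rcases hM with rfl | rfl
    · left; exact hN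
    · right
      rcases Int.natAbs_eq p with h3 | h3
      · rw [h3]; exact hN
      · rw [h3]; exact hN.neg
  have h4 := (h p q (by omega) hN2).trans happ
  have h5 := hQ0 q (by omega)
  have e1 : (q : ℝ) ^ (-2 + δ - δ / 2) = (q : ℝ) ^ (δ / 2) / (q : ℝ) ^ 2 := by
    rw [show (-2 : ℝ) + δ - δ / 2 = δ / 2 - 2 by ring, Real.rpow_sub hq0]
    norm_cast
  rw [e1, mul_div_assoc', div_le_div_iff_of_pos_right (by positivity)] at h4
  rw [div_lt_iff₀ hc] at h5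
  linarith

end Pool.Agent.U773.RS
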